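import Pool.Agent.HIK.Stmts

/-! HIK, module FIN: the monodromy group of the specialised representation. -/

set_option autoImplicit false

namespace Pool.Agent.HIK.H81

open Polynomial NumberField Matrix Pool.Agent.MTL Pool.Agent.Helper78_MT

universe u

/-- module FIN -/
theorem fin (ser : SerStmt) (mon : MonStmt.{u}) : FinStmt.{u} := by
  intro K _ _ d _ _ ℓ _ ρ hρ
  obtain ⟨S, hS, h⟩ := ser K d ℓ ρ hρ
  refine ⟨S, hS, fun a ha ψ ρa hsp F _ _ => ?_⟩
  obtain ⟨h1, h2⟩ := h a ha ψ ρa hsp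
  exact mon d ℚ_[ℓ] GT (Stab (ψ a)) ρ ρa h1 h2 F

end Pool.Agent.HIK.H81
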