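import Pool.Agent.HIK.Stmts

/-! HIK, module GPF: the group of `φ(K)(t)` is open, closed and of finite index. -/

set_option autoImplicit false

namespace Pool.Agent.HIK.H81

open Polynomial NumberField Pool.Agent.MTL

/-- module GPF -/
theorem gpf : GpfStmt := by
  intro K _ _ φ
  have hopen : IsOpen (Gph φ : Set GT) := by
    have hfin : Set.Finite (Set.range fun i => φ (Module.finBasis ℚ K i)) := Set.finite_range _
    have hfd : FiniteDimensional (RatFunc ℚ) (IntermediateField.adjoin (RatFunc ℚ)
        (Set.range fun i => φ (Module.finBasis ℚ K i))) := by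
      have := hfin.to_subtype
      exact IntermediateField.finiteDimensional_adjoin
        (fun x _ => Algebra.IsIntegral.isIntegral x)
    have hop := IntermediateField.fixingSubgroup_isOpen
      (IntermediateField.adjoin (RatFunc ℚ) (Set.range fun i => φ (Module.finBasis ℚ K i)))
    refine Subgroup.isOpen_mono ?_ hop
    intro σ hσ c
    have h1 : ∀ i, σ (φ (Module.finBasis ℚ K i)) = φ (Module.finBasis ℚ K i) := fun i =>
      hσ ⟨_, IntermediateField.subset_adjoin _ _ ⟨i, rfl⟩⟩
    have h2 := (Module.finBasis ℚ K).sum_repr c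
    rw [← h2, map_sum, map_sum]
    refine Finset.sum_congr rfl fun i _ => ?_
    have h3 : ∀ (q : ℚ) (x : K), φ (q • x) = (q : Om) * φ x := by
      intro q x
      rw [Rat.smul_def, map_mul, map_ratCast]
    rw [h3, map_mul, map_ratCast, h1 i]
  refine ⟨hopen, Subgroup.isClosed_of_isOpen _ hopen, ?_⟩
  have := Subgroup.quotient_finite_of_isOpen (Gph φ) hopen
  exact Subgroup.finiteIndex_of_finite_quotient

end Pool.Agent.HIK.H81
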